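import Pool.Agent.L7h58.BP.Stm3

set_option autoImplicit false

/-!
# Project BP, part ALN: a prime `l` near `√n` with small `n mod (l-1)` (Fejér kernel)
-/

namespace Pool.Agent.L7h22.BP

open Finset Pool.Agent.L7h58.BP

open scoped ArithmeticFunction.vonMangoldt

theorem ex_eq (x : ℝ) : ex x = Complex.exp (Complex.I * ((2 * Real.pi * x : ℝ) : ℂ)) := by
  unfold ex
  congr 1
  push_cast
  ring

theorem ex_norm (x : ℝ) : ‖ex x‖ = 1 := by
  rw [ex_eq, mul_comm, Complex.norm_exp_ofReal_mul_I]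

theorem ex_add' (x y : ℝ) : ex (x + y) = ex x * ex y := by
  rw [ex_eq, ex_eq, ex_eq, ← Complex.exp_add]
  congr 1
  push_cast
  ring

theorem ex_conj (x : ℝ) : (starRingEnd ℂ) (ex x) = ex (-x) := by
  rw [ex_eq, ex_eq, ← Complex.exp_conj]
  congr 1
  simp only [map_mul, Complex.conj_I, Complex.conj_ofReal]
  push_cast
  ring

theorem ex_zero : ex 0 = 1 := by
  rw [ex_eq]
  simp

theorem ex_nat (m : ℕ) : ex m = 1 := by
  unfold ex
  rw [Complex.exp_eq_one_iff]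
  exact ⟨m, by push_cast; ring⟩

/-- `|e(f) - 1| ≥ 4 δ` -/
theorem ex_sub_one {f δ : ℝ} (hδ : 0 ≤ δ) (h1 : δ ≤ f) (h2 : f ≤ 1 - δ) : 4 * δ ≤ ‖ex f - 1‖ := by
  rw [ex_eq, Complex.norm_exp_I_mul_ofReal_sub_one, Real.norm_eq_abs]
  have hpi := Real.pi_pos
  have e : 2 * Real.pi * f / 2 = Real.pi * f := by ring
  rw [e]
  have key : 2 * δ ≤ Real.sin (Real.pi * f) := by
    rcases le_or_gt f (1 / 2) with hf | hf
    · have := Real.mul_le_sin (x := Real.pi * f) (mul_nonneg hpi.le (by linarith)) (by nlinarith)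
      have e2 : 2 / Real.pi * (Real.pi * f) = 2 * f := by field_simp
      rw [e2] at this
      linarith
    · have h3 : Real.sin (Real.pi * f) = Real.sin (Real.pi * (1 - f)) := by
        rw [← Real.sin_pi_sub]
        congr 1
        ring
      have := Real.mul_le_sin (x := Real.pi * (1 - f)) (mul_nonneg hpi.le (by linarith)) (by nlinarith)
      have e2 : 2 / Real.pi * (Real.pi * (1 - f)) = 2 * (1 - f) := by field_simp
      rw [e2] at this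
      rw [h3]
      linarith
  have := le_abs_self (2 * Real.sin (Real.pi * f))
  linarith

/-- the Dirichlet kernel -/
noncomputable def DD (H : ℕ) (θ : ℝ) : ℂ := ∑ j ∈ range H, ex (j * θ)

theorem DD_le (H : ℕ) (θ : ℝ) : ‖DD H θ‖ ≤ H := by
  unfold DD
  refine (norm_sum_le _ _).trans ?_
  simp [ex_norm]

theorem ex_pow (θ : ℝ) (j : ℕ) : ex (j * θ) = (ex θ) ^ j := by
  rw [ex_eq, ex_eq, ← Complex.exp_nat_mul]
  congr 1
  push_cast
  ring

theorem DD_small (H K : ℕ) (hK : 1 ≤ K) (θ f : ℝ) (hf : ex θ = ex f)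
    (h1 : 1 / (2 * (K : ℝ)) ≤ f) (h2 : f ≤ 1 - 1 / (2 * (K : ℝ))) : ‖DD H θ‖ ≤ K := by
  have hK0 : (0 : ℝ) < K := by exact_mod_cast hK
  have h3 := ex_sub_one (f := f) (δ := 1 / (2 * (K : ℝ))) (by positivity) h1 h2
  have h4 : DD H θ * (ex θ - 1) = (ex θ) ^ H - 1 := by
    unfold DD
    simp_rw [ex_pow]
    exact geom_sum_mul (ex θ) H
  have h5 : ‖(ex θ) ^ H - 1‖ ≤ 2 := by
    refine (norm_sub_le _ _).trans ?_
    rw [norm_pow, ex_norm]
    norm_num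
  have h6 : ‖DD H θ‖ * ‖ex θ - 1‖ ≤ 2 := by
    rw [← norm_mul, h4]
    exact h5
  rw [hf] at h6
  have h7 : ‖DD H θ‖ * (4 * (1 / (2 * (K : ℝ)))) ≤ 2 :=
    (mul_le_mul_of_nonneg_left h3 (norm_nonneg _)).trans h6
  have h8 : 4 * (1 / (2 * (K : ℝ))) = 2 / K := by field_simp; norm_num
  rw [h8] at h7
  have h9 : ‖DD H θ‖ * (2 / K) = (‖DD H θ‖ * 2) / K := by ring
  rw [h9, div_le_iff₀ hK0] at h7
  linarith

/-- `|D|²` as a double sum -/
theorem DD_sq (H : ℕ) (θ : ℝ) :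
    (((‖DD H θ‖ ^ 2 : ℝ)) : ℂ) = ∑ j ∈ range H, ∑ k ∈ range H, ex (((j : ℝ) - k) * θ) := by
  have h1 : (((‖DD H θ‖ ^ 2 : ℝ)) : ℂ) = DD H θ * (starRingEnd ℂ) (DD H θ) := by
    rw [Complex.mul_conj, Complex.normSq_eq_norm_sq]
  rw [h1]
  unfold DD
  rw [map_sum, Finset.sum_mul_sum]
  refine Finset.sum_congr rfl fun j _ => Finset.sum_congr rfl fun k _ => ?_
  rw [ex_conj, ← ex_add']
  congr 1
  ring

theorem fejer_lower (L n H : ℕ) (δ B P : ℝ) (hB : 0 ≤ B)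
    (hP : P = ∑ m ∈ Ioc L (2 * L), Λ m)
    (hS : ∀ h : ℕ, 1 ≤ h → h < H → ‖∑ m ∈ Ioc L (2 * L), ((Λ m : ℝ) : ℂ) *
      ex ((h * n : ℝ) / ((m : ℝ) - 1))‖ ≤ B) :
    H * P - H ^ 2 * B ≤ ∑ m ∈ Ioc L (2 * L), Λ m * ‖DD H ((n : ℝ) / ((m : ℝ) - 1) - δ)‖ ^ 2 := by
  have hG : ∀ h : ℕ, 1 ≤ h → h < H → ‖∑ m ∈ Ioc L (2 * L), ((Λ m : ℝ) : ℂ) *
      ex ((h : ℝ) * ((n : ℝ) / ((m : ℝ) - 1) - δ))‖ ≤ B := by
    intro h h1 h2
    have e : ∑ m ∈ Ioc L (2 * L), ((Λ m : ℝ) : ℂ) * ex ((h : ℝ) * ((n : ℝ) / ((m : ℝ) - 1) - δ)) =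
        ex (-(h * δ)) * ∑ m ∈ Ioc L (2 * L), ((Λ m : ℝ) : ℂ) * ex ((h * n : ℝ) / ((m : ℝ) - 1)) := by
      rw [Finset.mul_sum]
      refine Finset.sum_congr rfl fun m _ => ?_
      have e2 : (h : ℝ) * ((n : ℝ) / ((m : ℝ) - 1) - δ) = -(h * δ) + (h * n : ℝ) / ((m : ℝ) - 1) := by
        ring
      rw [e2, ex_add']
      ring
    rw [e, norm_mul, ex_norm, one_mul]
    exact hS h h1 h2
  have hG' : ∀ h : ℕ, 1 ≤ h → h < H → ‖∑ m ∈ Ioc L (2 * L), ((Λ m : ℝ) : ℂ) *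
      ex (-(h : ℝ) * ((n : ℝ) / ((m : ℝ) - 1) - δ))‖ ≤ B := by
    intro h h1 h2
    have e : ∑ m ∈ Ioc L (2 * L), ((Λ m : ℝ) : ℂ) * ex (-(h : ℝ) * ((n : ℝ) / ((m : ℝ) - 1) - δ)) =
        (starRingEnd ℂ) (∑ m ∈ Ioc L (2 * L), ((Λ m : ℝ) : ℂ) *
          ex ((h : ℝ) * ((n : ℝ) / ((m : ℝ) - 1) - δ))) := by
      rw [map_sum]
      refine Finset.sum_congr rfl fun m _ => ?_
      rw [map_mul, Complex.conj_ofReal, ex_conj]
      congr 2
      ring
    rw [e, RCLike.norm_conj]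
    exact hG h h1 h2
  have h1 : (((∑ m ∈ Ioc L (2 * L), Λ m * ‖DD H ((n : ℝ) / ((m : ℝ) - 1) - δ)‖ ^ 2 : ℝ)) : ℂ) =
      ∑ j ∈ range H, ∑ k ∈ range H, ∑ m ∈ Ioc L (2 * L), ((Λ m : ℝ) : ℂ) *
        ex (((j : ℝ) - k) * ((n : ℝ) / ((m : ℝ) - 1) - δ)) := by
    rw [Complex.ofReal_sum]
    have e : ∀ m ∈ Ioc L (2 * L), (((Λ m * ‖DD H ((n : ℝ) / ((m : ℝ) - 1) - δ)‖ ^ 2 : ℝ)) : ℂ) =
        ∑ j ∈ range H, ∑ k ∈ range H, ((Λ m : ℝ) : ℂ) *
          ex (((j : ℝ) - k) * ((n : ℝ) / ((m : ℝ) - 1) - δ)) := by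
      intro m _
      rw [Complex.ofReal_mul, DD_sq, Finset.mul_sum]
      refine Finset.sum_congr rfl fun j _ => ?_
      rw [Finset.mul_sum]
    rw [Finset.sum_congr rfl e, Finset.sum_comm]
    refine Finset.sum_congr rfl fun j _ => ?_
    rw [Finset.sum_comm]
  have h2 : ∀ j ∈ range H, ∀ k ∈ range H, (if j = k then P else 0) - B ≤
      (∑ m ∈ Ioc L (2 * L), ((Λ m : ℝ) : ℂ) *
        ex (((j : ℝ) - k) * ((n : ℝ) / ((m : ℝ) - 1) - δ))).re := by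
    intro j hj k hk
    rw [Finset.mem_range] at hj hk
    rcases lt_trichotomy j k with h | h | h
    · rw [if_neg (by omega)]
      have h3 := hG' (k - j) (by omega) (by omega)
      have e : ((j : ℝ) - k) = -((k - j : ℕ) : ℝ) := by
        rw [Nat.cast_sub h.le]; ring
      rw [e]
      have h4 := (abs_le.1 (Complex.abs_re_le_norm (∑ m ∈ Ioc L (2 * L), ((Λ m : ℝ) : ℂ) *
        ex (-((k - j : ℕ) : ℝ) * ((n : ℝ) / ((m : ℝ) - 1) - δ))))).1
      linarith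
    · rw [if_pos h]
      subst h
      have e : ∑ m ∈ Ioc L (2 * L), ((Λ m : ℝ) : ℂ) *
          ex (((j : ℝ) - j) * ((n : ℝ) / ((m : ℝ) - 1) - δ)) = ((P : ℝ) : ℂ) := by
        rw [hP, Complex.ofReal_sum]
        refine Finset.sum_congr rfl fun m _ => ?_
        rw [sub_self, zero_mul, ex_zero, mul_one]
      rw [e, Complex.ofReal_re]
      linarith
    · rw [if_neg (by omega)]
      have h3 := hG (j - k) (by omega) (by omega)
      have e : ((j : ℝ) - k) = ((j - k : ℕ) : ℝ) := by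
        rw [Nat.cast_sub h.le]
      rw [e]
      have h4 := (abs_le.1 (Complex.abs_re_le_norm (∑ m ∈ Ioc L (2 * L), ((Λ m : ℝ) : ℂ) *
        ex (((j - k : ℕ) : ℝ) * ((n : ℝ) / ((m : ℝ) - 1) - δ))))).1
      linarith
  have h3 := congrArg Complex.re h1
  rw [Complex.ofReal_re] at h3
  rw [h3, Complex.re_sum]
  have h4 : ∑ j ∈ range H, ∑ k ∈ range H, ((if j = k then P else 0) - B) = H * P - H ^ 2 * B := by
    have e : ∀ j ∈ range H, ∑ k ∈ range H, ((if j = k then P else 0) - B) = P - H * B := by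
      intro j hj
      rw [Finset.sum_sub_distrib, Finset.sum_ite_eq, if_pos hj, Finset.sum_const, Finset.card_range,
        nsmul_eq_mul]
    rw [Finset.sum_congr rfl e, Finset.sum_const, Finset.card_range, nsmul_eq_mul]
    ring
  rw [← h4]
  refine Finset.sum_le_sum fun j hj => ?_
  rw [Complex.re_sum]
  exact Finset.sum_le_sum fun k hk => h2 j hj k hk

/-- proper prime powers in `(L, 2L]` -/
theorem powers (L : ℕ) (hL : 1 ≤ L) : ∑ m ∈ (Ioc L (2 * L)).filter (fun m => ¬ m.Prime), Λ m ≤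
    2 * Real.sqrt (2 * L) * Real.log (2 * L) := by
  have h1 := Chebyshev.psi_sub_theta_le (x := ((2 * L : ℕ) : ℝ)) (by exact_mod_cast (by omega : 1 ≤ 2 * L))
  rw [Chebyshev.psi_sub_theta_eq_sum_not_prime, Nat.floor_natCast] at h1
  push_cast at h1
  refine le_trans ?_ h1
  refine Finset.sum_le_sum_of_subset_of_nonneg ?_ fun _ _ _ => ArithmeticFunction.vonMangoldt_nonneg
  intro m hm
  simp only [mem_filter, mem_Ioc] at hm ⊢
  exact ⟨⟨by omega, hm.1.2⟩, hm.2⟩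

/-- upper bound -/
theorem fejer_upper (L n H K : ℕ) (hL : 1 ≤ L) (hK : 1 ≤ K) (P : ℝ)
    (hP : P = ∑ m ∈ Ioc L (2 * L), Λ m)
    (hno : ∀ l ∈ Ioc L (2 * L), l.Prime → (l : ℕ) - 1 ≤ K * (n % (l - 1))) :
    ∑ m ∈ Ioc L (2 * L), Λ m * ‖DD H ((n : ℝ) / ((m : ℝ) - 1) - 1 / (2 * (K : ℝ)))‖ ^ 2 ≤
      K ^ 2 * P + H ^ 2 * (2 * Real.sqrt (2 * L) * Real.log (2 * L)) := by
  have hK0 : (0 : ℝ) < K := by exact_mod_cast hK
  have h1 : ∑ m ∈ (Ioc L (2 * L)).filter (fun m => ¬ m.Prime),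
      Λ m * ‖DD H ((n : ℝ) / ((m : ℝ) - 1) - 1 / (2 * (K : ℝ)))‖ ^ 2 ≤
      H ^ 2 * (2 * Real.sqrt (2 * L) * Real.log (2 * L)) := by
    refine le_trans ?_ (mul_le_mul_of_nonneg_left (powers L hL) (by positivity))
    rw [Finset.mul_sum]
    refine Finset.sum_le_sum fun m _ => ?_
    rw [mul_comm]
    exact mul_le_mul_of_nonneg_right (pow_le_pow_left₀ (norm_nonneg _) (DD_le H _) 2)
      ArithmeticFunction.vonMangoldt_nonneg
  have h2 : ∑ m ∈ (Ioc L (2 * L)).filter (fun m => m.Prime),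
      Λ m * ‖DD H ((n : ℝ) / ((m : ℝ) - 1) - 1 / (2 * (K : ℝ)))‖ ^ 2 ≤ K ^ 2 * P := by
    have h3 : K ^ 2 * ∑ m ∈ (Ioc L (2 * L)).filter (fun m => m.Prime), Λ m ≤ K ^ 2 * P := by
      rw [hP]
      refine mul_le_mul_of_nonneg_left (Finset.sum_le_sum_of_subset_of_nonneg
        (Finset.filter_subset _ _) fun _ _ _ => ArithmeticFunction.vonMangoldt_nonneg) (by positivity)
    refine le_trans ?_ h3
    rw [Finset.mul_sum]
    refine Finset.sum_le_sum fun l hl => ?_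
    rw [Finset.mem_filter] at hl
    rw [mul_comm]
    refine mul_le_mul_of_nonneg_right (pow_le_pow_left₀ (norm_nonneg _) ?_ 2)
      ArithmeticFunction.vonMangoldt_nonneg
    have h4 := hno l hl.1 hl.2
    have h5 := Finset.mem_Ioc.1 hl.1
    obtain ⟨q, hq⟩ : ∃ q : ℕ, l = q + 1 := ⟨l - 1, by omega⟩
    have hq1 : 1 ≤ q := by have := hl.2.two_le; omega
    rw [hq, Nat.add_sub_cancel] at h4
    have hq0 : (0 : ℝ) < q := by exact_mod_cast hq1
    have hlq : ((l : ℝ) - 1) = q := by rw [hq]; push_cast; ring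
    rw [hlq]
    have h6 := Nat.div_add_mod n q
    have h7 := Nat.mod_lt n (show q > 0 by omega)
    have h8 : (n : ℝ) = q * (n / q : ℕ) + (n % q : ℕ) := by exact_mod_cast h6.symm
    have h9 : (n : ℝ) / q = (n / q : ℕ) + ((n % q : ℕ) : ℝ) / q := by
      rw [h8]
      field_simp
    have h10 : (q : ℝ) ≤ K * ((n % q : ℕ) : ℝ) := by exact_mod_cast h4
    have h11 : 1 / (K : ℝ) ≤ ((n % q : ℕ) : ℝ) / q := by
      rw [div_le_div_iff₀ hK0 hq0]
      linarith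
    have h12 : ((n % q : ℕ) : ℝ) / q ≤ 1 := by
      rw [div_le_one hq0]
      exact_mod_cast h7.le
    have h13 : 1 / (K : ℝ) = 2 * (1 / (2 * (K : ℝ))) := by field_simp
    refine DD_small H K hK _ (((n % q : ℕ) : ℝ) / q - 1 / (2 * (K : ℝ))) ?_ ?_ ?_
    · rw [h9, add_sub_assoc, ex_add', ex_nat, one_mul]
    · linarith
    · linarith
  rw [← Finset.sum_filter_add_sum_filter_not (Ioc L (2 * L)) (fun m => m.Prime)]
  linarith

theorem mass : ∀ᶠ x : ℕ in Filter.atTop, (x : ℝ) / 2 ≤ ∑ m ∈ Ioc x (2 * x), Λ m ∨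
    (x : ℝ) / 2 ≤ ∑ m ∈ Ioc (2 * x) (2 * (2 * x)), Λ m := by
  have hlo := (isLittleO_log_rpow_atTop (r := 1 / 2) (by norm_num)).bound
    (show (0 : ℝ) < 1 / 20 by norm_num)
  have hlo2 := tendsto_natCast_atTop_atTop (R := ℝ) |>.eventually hlo
  filter_upwards [hlo2, Filter.eventually_ge_atTop 10] with x hx hx10
  have hx1 : (10 : ℝ) ≤ x := by exact_mod_cast hx10
  have hlogpos : 0 ≤ Real.log x := Real.log_nonneg (by linarith)
  rw [Real.norm_of_nonneg hlogpos, Real.norm_of_nonneg (by positivity), ← Real.sqrt_eq_rpow] at hx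
  have h1 := Chebyshev.psi_ge (4 * x)
  have h2 := Chebyshev.theta_le_log4_mul_x (x := (x : ℝ)) (by positivity)
  have h3 := Chebyshev.psi_sub_theta_le (x := (x : ℝ)) (by linarith)
  have h4 : Chebyshev.psi ((4 * x : ℕ) : ℝ) = Chebyshev.psi (x : ℝ) +
      ((∑ m ∈ Ioc x (2 * x), Λ m) + ∑ m ∈ Ioc (2 * x) (2 * (2 * x)), Λ m) := by
    unfold Chebyshev.psi
    rw [Nat.floor_natCast, Nat.floor_natCast, Finset.sum_Ioc_consecutive _ (by omega) (by omega),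
      Finset.sum_Ioc_consecutive _ (by omega) (by omega)]
    congr 2
    omega
  have h5 : Real.log (((4 * x : ℕ) : ℝ) + 1) ≤ 2 * Real.log x := by
    rw [← Nat.cast_two, ← Real.log_pow]
    refine Real.log_le_log (by positivity) ?_
    push_cast
    nlinarith
  have h6 : Real.log 4 = 2 * Real.log 2 := by
    rw [show (4 : ℝ) = 2 ^ 2 by norm_num, Real.log_pow]
    norm_num
  have h7 := Real.log_two_gt_d9
  have h8 : Real.sqrt x * Real.sqrt x = x := Real.mul_self_sqrt (by positivity)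
  have h9 : 1 ≤ Real.sqrt x := Real.one_le_sqrt.2 (by linarith)
  have h10 : Real.sqrt x * Real.log x ≤ 1 / 20 * x := by
    calc Real.sqrt x * Real.log x ≤ Real.sqrt x * (1 / 20 * Real.sqrt x) :=
          mul_le_mul_of_nonneg_left hx (by positivity)
      _ = 1 / 20 * (Real.sqrt x * Real.sqrt x) := by ring
      _ = 1 / 20 * x := by rw [h8]
  have h11 : Real.log x ≤ Real.sqrt x * Real.log x := by nlinarith
  push_cast at h1
  push_cast at h4 h5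
  by_contra hcon
  push Not at hcon
  obtain ⟨c1, c2⟩ := hcon
  rw [h4] at h1
  rw [h6] at h2
  nlinarith

theorem asym (C : ℝ) (hC : 0 < C) : ∀ᶠ L : ℕ in Filter.atTop,
    32 * C * (L : ℝ) ^ (3 / 40 : ℝ) * (L : ℝ) ^ (11 / 12 : ℝ) * (Real.log L) ^ 3 +
      32 * (L : ℝ) ^ (1 / 20 : ℝ) * (Real.sqrt (2 * L) * Real.log (2 * L)) < L := by
  have hlo := (isLittleO_log_rpow_rpow_atTop 3 (show (0 : ℝ) < 1 / 120 by norm_num)).bound
    (show (0 : ℝ) < 1 / (64 * C + 256) by positivity)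
  have hlo2 := tendsto_natCast_atTop_atTop (R := ℝ) |>.eventually hlo
  filter_upwards [hlo2, Filter.eventually_ge_atTop 3] with L hx hL3
  have hL : (3 : ℝ) ≤ L := by exact_mod_cast hL3
  have hL0 : (0 : ℝ) < L := by linarith
  have hlog1 : 1 ≤ Real.log L := by
    rw [Real.le_log_iff_exp_le hL0]
    have := Real.exp_one_lt_d9
    linarith
  have e3 : Real.log L ^ (3 : ℝ) = (Real.log L) ^ 3 := by
    rw [← Real.rpow_natCast]; norm_num
  rw [e3, Real.norm_of_nonneg (by positivity), Real.norm_of_nonneg (by positivity)] at hx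
  have h1 : (L : ℝ) ^ (3 / 40 : ℝ) * (L : ℝ) ^ (11 / 12 : ℝ) = (L : ℝ) ^ (119 / 120 : ℝ) := by
    rw [← Real.rpow_add hL0]; norm_num
  have h2 : (L : ℝ) ^ (1 / 20 : ℝ) * Real.sqrt L ≤ (L : ℝ) ^ (119 / 120 : ℝ) := by
    rw [Real.sqrt_eq_rpow, ← Real.rpow_add hL0]
    exact Real.rpow_le_rpow_of_exponent_le (by linarith) (by norm_num)
  have h3 : Real.sqrt (2 * L) ≤ 2 * Real.sqrt L := by
    rw [Real.sqrt_mul (by norm_num)]
    refine mul_le_mul_of_nonneg_right ?_ (Real.sqrt_nonneg _)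
    rw [Real.sqrt_le_left (by norm_num)]
    norm_num
  have h4 : Real.log (2 * L) ≤ 2 * Real.log L := by
    rw [← Nat.cast_two, ← Real.log_pow]
    refine Real.log_le_log (by positivity) ?_
    push_cast
    nlinarith
  have h5 : Real.log L ≤ Real.log L ^ 3 := by
    have : 1 ≤ Real.log L ^ 2 := one_le_pow₀ hlog1
    nlinarith
  have h4' : 0 ≤ Real.log (2 * L) := Real.log_nonneg (by linarith)
  have h6 : (L : ℝ) ^ (1 / 20 : ℝ) * (Real.sqrt (2 * L) * Real.log (2 * L)) ≤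
      4 * ((L : ℝ) ^ (119 / 120 : ℝ) * Real.log L ^ 3) := by
    calc (L : ℝ) ^ (1 / 20 : ℝ) * (Real.sqrt (2 * L) * Real.log (2 * L)) ≤
        (L : ℝ) ^ (1 / 20 : ℝ) * ((2 * Real.sqrt L) * (2 * Real.log L)) := by
          refine mul_le_mul_of_nonneg_left (mul_le_mul h3 h4 h4' (by positivity)) (by positivity)
      _ = 4 * (((L : ℝ) ^ (1 / 20 : ℝ) * Real.sqrt L) * Real.log L) := by ring
      _ ≤ 4 * ((L : ℝ) ^ (119 / 120 : ℝ) * Real.log L ^ 3) := by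
          refine mul_le_mul_of_nonneg_left (mul_le_mul h2 h5 (by linarith) (by positivity)) (by norm_num)
  have h7 : (L : ℝ) ^ (119 / 120 : ℝ) * (L : ℝ) ^ (1 / 120 : ℝ) = L := by
    rw [← Real.rpow_add hL0]; norm_num
  have h8 : (32 * C + 128) * ((L : ℝ) ^ (119 / 120 : ℝ) * Real.log L ^ 3) ≤ L / 2 := by
    calc (32 * C + 128) * ((L : ℝ) ^ (119 / 120 : ℝ) * Real.log L ^ 3) ≤
        (32 * C + 128) * ((L : ℝ) ^ (119 / 120 : ℝ) *
          (1 / (64 * C + 256) * (L : ℝ) ^ (1 / 120 : ℝ))) := by gcongr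
      _ = (32 * C + 128) * (1 / (64 * C + 256)) *
          ((L : ℝ) ^ (119 / 120 : ℝ) * (L : ℝ) ^ (1 / 120 : ℝ)) := by ring
      _ = L / 2 := by
          rw [h7]
          have : (64 * C + 256) ≠ 0 := by positivity
          field_simp
          ring
  have e1 : 32 * C * (L : ℝ) ^ (3 / 40 : ℝ) * (L : ℝ) ^ (11 / 12 : ℝ) * (Real.log L) ^ 3 =
      32 * C * (((L : ℝ) ^ (3 / 40 : ℝ) * (L : ℝ) ^ (11 / 12 : ℝ)) * (Real.log L) ^ 3) := by ring
  rw [e1, h1]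
  have e2 : 32 * (L : ℝ) ^ (1 / 20 : ℝ) * (Real.sqrt (2 * L) * Real.log (2 * L)) =
    32 * ((L : ℝ) ^ (1 / 20 : ℝ) * (Real.sqrt (2 * L) * Real.log (2 * L))) := by ring
  rw [e2]
  nlinarith

theorem s_ALN (h : S_EXP) : S_ALN := by
  obtain ⟨C, hC, hE⟩ := h
  obtain ⟨X1, hX1⟩ := Filter.eventually_atTop.1 mass
  obtain ⟨X2, hX2⟩ := Filter.eventually_atTop.1 (asym C hC)
  have hz0 : ∀ᶠ n : ℕ in Filter.atTop, (65 : ℝ) ≤ (n : ℝ) ^ (1 / 400 : ℝ) :=
    ((tendsto_rpow_atTop (show (0 : ℝ) < 1 / 400 by norm_num)).comp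
      (tendsto_natCast_atTop_atTop (R := ℝ))).eventually (Filter.eventually_ge_atTop 65)
  obtain ⟨X3, hX3⟩ := Filter.eventually_atTop.1 hz0
  refine ⟨X3 + X1 ^ 2 + X2 ^ 2, fun n hn => ?_⟩
  have hz := hX3 n (by nlinarith)
  have hn1 : X1 ^ 2 ≤ n := by nlinarith
  have hn2 : X2 ^ 2 ≤ n := by nlinarith
  obtain ⟨z, hzd⟩ : ∃ z : ℝ, z = (n : ℝ) ^ (1 / 400 : ℝ) := ⟨_, rfl⟩
  rw [← hzd] at hz
  have hnR : (0 : ℝ) ≤ n := Nat.cast_nonneg n
  have hz400 : z ^ 400 = n := by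
    rw [hzd, ← Real.rpow_natCast, ← Real.rpow_mul hnR]
    norm_num
  have hnpos : (0 : ℝ) < n := by rw [← hz400]; positivity
  have hnpos' : 0 < n := by exact_mod_cast hnpos
  have hzp : (0 : ℝ) < z := by linarith
  -- the interval
  obtain ⟨x, hxd⟩ : ∃ x : ℕ, x = Nat.sqrt n + 1 := ⟨_, rfl⟩
  have hx1 : n < x ^ 2 := by rw [hxd, sq]; exact Nat.lt_succ_sqrt n
  have hx2 : x ^ 2 ≤ 4 * n := by
    have h1 := Nat.sqrt_le n
    have h2 := Nat.sqrt_le_self n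
    rw [hxd]
    nlinarith
  have hxX1 : X1 ≤ x := by nlinarith
  have hxX2 : X2 ≤ x := by nlinarith
  obtain ⟨L, hxL, hL1, hL2, hLP⟩ : ∃ L : ℕ, x ≤ L ∧ n ≤ L ^ 2 ∧ L ^ 2 ≤ 16 * n ∧
      (L : ℝ) / 4 ≤ ∑ m ∈ Ioc L (2 * L), Λ m := by
    rcases hX1 x hxX1 with h | h
    · exact ⟨x, le_rfl, hx1.le, by omega, by
        have : (0 : ℝ) ≤ x := Nat.cast_nonneg x
        linarith⟩
    · refine ⟨2 * x, by omega, by nlinarith, by nlinarith, ?_⟩
      push_cast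
      linarith
  have hL3 := hX2 L (hxX2.trans hxL)
  have hLpos : 0 < L := by
    rcases Nat.eq_zero_or_pos L with h | h
    · rw [h] at hL1; omega
    · exact h
  have hLR : (0 : ℝ) < L := by exact_mod_cast hLpos
  have hL1R : (n : ℝ) ≤ (L : ℝ) ^ 2 := by exact_mod_cast hL1
  have hL200 : z ^ 200 ≤ L := by
    refine (pow_le_pow_iff_left₀ (by positivity) hLR.le (two_ne_zero)).1 ?_
    calc (z ^ 200) ^ 2 = z ^ 400 := by ring
      _ = (n : ℝ) := hz400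
      _ ≤ (L : ℝ) ^ 2 := hL1R
  -- K
  obtain ⟨K, hKd⟩ : ∃ K : ℕ, K = ⌊z ^ 5⌋₊ := ⟨_, rfl⟩
  have hK1 : (K : ℝ) ≤ z ^ 5 := by rw [hKd]; exact Nat.floor_le (by positivity)
  have hK2 : z ^ 5 < K + 1 := by rw [hKd]; exact Nat.lt_floor_add_one _
  have hz4 : 1 ≤ z ^ 4 := one_le_pow₀ (by linarith)
  have hK3 : 64 * z ^ 4 ≤ K := by nlinarith
  have hz4' : 65 * 65 ≤ z ^ 4 := by
    have h1 : (65 : ℝ) ^ 4 ≤ z ^ 4 := pow_le_pow_left₀ (by norm_num) hz 4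
    linarith
  have hK4 : (128 : ℝ) ≤ K := by linarith
  have hK4' : 128 ≤ K := by exact_mod_cast hK4
  have hKL : (K : ℝ) ≤ (L : ℝ) ^ (1 / 40 : ℝ) := by
    have h1 : z ^ 5 ≤ (L : ℝ) ^ (1 / 40 : ℝ) := by
      have h2 : (z ^ 5) = (z ^ 200) ^ (1 / 40 : ℝ) := by
        rw [← Real.rpow_natCast, ← Real.rpow_natCast, ← Real.rpow_mul hzp.le]
        norm_num
      rw [h2]
      exact Real.rpow_le_rpow (by positivity) hL200 (by norm_num)
    linarith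
  obtain ⟨l, hl1, hl2, hl3⟩ : ∃ l ∈ Ioc L (2 * L), l.Prime ∧ K * (n % (l - 1)) < l - 1 := by
    by_contra hcon
    push Not at hcon
    obtain ⟨P, hP⟩ : ∃ P : ℝ, P = ∑ m ∈ Ioc L (2 * L), Λ m := ⟨_, rfl⟩
    obtain ⟨B, hB⟩ : ∃ B : ℝ, B = C * (L : ℝ) ^ (11 / 12 : ℝ) * (2 * K) * (Real.log L) ^ 3 :=
      ⟨_, rfl⟩
    have hlogL : 0 ≤ Real.log L := Real.log_natCast_nonneg L
    have hB0 : 0 ≤ B := by rw [hB]; positivity
    have hup := fejer_upper L n (2 * K ^ 2) K hLpos (by omega) P hP hcon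
    have h16 : 16 * K ^ 4 ≤ L := by
      have h1 : (16 : ℝ) * K ^ 4 ≤ L := by
        calc (16 : ℝ) * K ^ 4 ≤ z ^ 180 * (z ^ 5) ^ 4 := by
              refine mul_le_mul ?_ (pow_le_pow_left₀ (by positivity) hK1 4) (by positivity)
                (by positivity)
              calc (16 : ℝ) ≤ z := by linarith
                _ ≤ z ^ 180 := le_self_pow₀ (by linarith) (by norm_num)
          _ = z ^ 200 := by ring
          _ ≤ L := hL200
      exact_mod_cast h1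
    have hlow := fejer_lower L n (2 * K ^ 2) (1 / (2 * (K : ℝ))) B P hB0 hP (by
      intro h h1 h2
      have hK4p : 0 < K ^ 4 := pow_pos (by omega) 4
      have h6 : h ^ 2 ≤ (2 * K ^ 2) ^ 2 := Nat.pow_le_pow_left h2.le 2
      have h7 : (2 * K ^ 2) ^ 2 = 4 * K ^ 4 := by ring
      refine (hE L n h (by omega) hL2 hL1 h1 (by omega)).trans ?_
      rw [hB]
      have h3 : Real.sqrt h ≤ 2 * K := by
        rw [Real.sqrt_le_left (by positivity)]
        have h4 : (h : ℝ) ≤ 2 * (K : ℝ) ^ 2 := by exact_mod_cast h2.le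
        have e : (2 * (K : ℝ)) ^ 2 = 4 * (K : ℝ) ^ 2 := by ring
        have h5 : 0 ≤ (K : ℝ) ^ 2 := by positivity
        rw [e]
        linarith
      gcongr)
    push_cast at hup hlow
    obtain ⟨R, hR⟩ : ∃ R : ℝ, R = 2 * Real.sqrt (2 * L) * Real.log (2 * L) := ⟨_, rfl⟩
    rw [← hR] at hup
    have hKp : (0 : ℝ) < (K : ℝ) ^ 2 := by positivity
    have h1 : (K : ℝ) ^ 2 * P ≤ (K : ℝ) ^ 2 * (4 * (K : ℝ) ^ 2 * (B + R)) := by
      have h2 := hlow.trans hup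
      have e1 : (K : ℝ) ^ 2 * (4 * (K : ℝ) ^ 2 * (B + R)) =
        (2 * (K : ℝ) ^ 2) ^ 2 * B + (2 * (K : ℝ) ^ 2) ^ 2 * R := by ring
      rw [e1]
      linarith
    have h2 : P ≤ 4 * (K : ℝ) ^ 2 * (B + R) := le_of_mul_le_mul_left h1 hKp
    rw [← hP] at hLP
    have h3 : (L : ℝ) ≤ 16 * (K : ℝ) ^ 2 * (B + R) := by linarith
    have h4 : (K : ℝ) ^ 3 ≤ (L : ℝ) ^ (3 / 40 : ℝ) := by
      calc (K : ℝ) ^ 3 ≤ ((L : ℝ) ^ (1 / 40 : ℝ)) ^ 3 := pow_le_pow_left₀ (by positivity) hKL 3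
        _ = (L : ℝ) ^ (3 / 40 : ℝ) := by
          rw [← Real.rpow_natCast, ← Real.rpow_mul hLR.le]; norm_num
    have h5 : (K : ℝ) ^ 2 ≤ (L : ℝ) ^ (1 / 20 : ℝ) := by
      calc (K : ℝ) ^ 2 ≤ ((L : ℝ) ^ (1 / 40 : ℝ)) ^ 2 := pow_le_pow_left₀ (by positivity) hKL 2
        _ = (L : ℝ) ^ (1 / 20 : ℝ) := by
          rw [← Real.rpow_natCast, ← Real.rpow_mul hLR.le]; norm_num
    have hlog2 : 0 ≤ Real.log (2 * L) := by
      have := Real.log_natCast_nonneg (2 * L)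
      push_cast at this
      exact this
    have h6 : 16 * (K : ℝ) ^ 2 * B ≤
        32 * C * (L : ℝ) ^ (3 / 40 : ℝ) * (L : ℝ) ^ (11 / 12 : ℝ) * (Real.log L) ^ 3 := by
      rw [hB]
      calc 16 * (K : ℝ) ^ 2 * (C * (L : ℝ) ^ (11 / 12 : ℝ) * (2 * K) * (Real.log L) ^ 3) =
          32 * C * (K : ℝ) ^ 3 * (L : ℝ) ^ (11 / 12 : ℝ) * (Real.log L) ^ 3 := by ring
        _ ≤ _ := by gcongr
    have h7 : 16 * (K : ℝ) ^ 2 * R ≤
        32 * (L : ℝ) ^ (1 / 20 : ℝ) * (Real.sqrt (2 * L) * Real.log (2 * L)) := by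
      rw [hR]
      calc 16 * (K : ℝ) ^ 2 * (2 * Real.sqrt (2 * L) * Real.log (2 * L)) =
          32 * (K : ℝ) ^ 2 * (Real.sqrt (2 * L) * Real.log (2 * L)) := by ring
        _ ≤ _ := by gcongr
    linarith
  rw [Finset.mem_Ioc] at hl1
  have hl4 := hl2.two_le
  obtain ⟨q, hq⟩ : ∃ q : ℕ, l = q + 1 := ⟨l - 1, by omega⟩
  have hq' : l - 1 = q := by omega
  rw [hq'] at hl3
  have hdm := Nat.div_add_mod n q
  obtain ⟨A, hA⟩ : ∃ A : ℕ, A = n / q := ⟨_, rfl⟩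
  obtain ⟨t, ht⟩ : ∃ t : ℕ, t = n % q := ⟨_, rfl⟩
  rw [← hA, ← ht] at hdm
  rw [← ht] at hl3
  have hLbig : 2 ≤ L := by
    have h1 : (65 : ℝ) ≤ L := by
      calc (65 : ℝ) ≤ z := hz
        _ ≤ z ^ 200 := le_self_pow₀ (by linarith) (by norm_num)
        _ ≤ L := hL200
    have : 65 ≤ L := by exact_mod_cast h1
    omega
  have htL : K * t < 2 * L := by omega
  have htL' : 64 * t ≤ L := by
    have h1 : 128 * t ≤ K * t := Nat.mul_le_mul_right _ hK4'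
    omega
  have htl : 32 * (t * l) ≤ L ^ 2 := by
    have h1 : (64 * t) * l ≤ L * (2 * L) := Nat.mul_le_mul htL' hl1.2
    have e1 : (64 * t) * l = 64 * (t * l) := by ring
    have e2 : L * (2 * L) = 2 * L ^ 2 := by ring
    omega
  refine ⟨l, A, t, hl2, by omega, ?_, ?_, ?_, ?_⟩
  · rw [hq', mul_comm]; exact hdm.symm
  · by_contra hc
    push Not at hc
    have h1 : n ≤ t * l := by
      rw [hq, ← hdm]
      calc q * A + t ≤ q * t + t := Nat.add_le_add_right (Nat.mul_le_mul_left _ hc) _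
        _ = t * (q + 1) := by ring
    omega
  · have h1 : A * L ≤ L * L := by
      calc A * L ≤ A * q := Nat.mul_le_mul_left _ (by omega)
        _ ≤ n := by rw [← hdm, mul_comm q A]; omega
        _ ≤ L * L := by rw [← sq]; exact hL1
    have := Nat.le_of_mul_le_mul_right h1 hLpos
    omega
  · have h1 : z ^ 4 * (n : ℝ) ^ (99 / 100 : ℝ) = n := by
      have h2 : z ^ 4 = (n : ℝ) ^ (1 / 100 : ℝ) := by
        rw [hzd, ← Real.rpow_natCast, ← Real.rpow_mul hnR]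
        norm_num
      rw [h2, ← Real.rpow_add hnpos]
      norm_num
    have h3 : K * (t * l) ≤ 64 * n := by
      have h4 : K * (t * l) ≤ (2 * L) * (2 * L) := by
        rw [← mul_assoc]
        exact Nat.mul_le_mul htL.le hl1.2
      have e : (2 * L) * (2 * L) = 4 * L ^ 2 := by ring
      omega
    have h5 : (K : ℝ) * (t * l) ≤ 64 * n := by exact_mod_cast h3
    have h6 : 64 * z ^ 4 * ((t : ℝ) * l) ≤ 64 * n :=
      (mul_le_mul_of_nonneg_right hK3 (by positivity)).trans h5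
    have h7 : z ^ 4 * ((t : ℝ) * l) ≤ z ^ 4 * (n : ℝ) ^ (99 / 100 : ℝ) := by
      rw [h1]; linarith
    exact le_of_mul_le_mul_left h7 (by positivity)

end Pool.Agent.L7h22.BP
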