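import Pool.Agent.L7h22.BP.Vs

/-!
# Project BP, part EXP: the sum over prime powers (helper22)
-/

set_option autoImplicit false

namespace Pool.Agent.L7h22.BP

open Finset
open Pool.Agent.L7h58.BP (ex S_TYI S_TYII S_EXP)

/-- one box -/
theorem piece {C : ℝ} (hC : 0 < C)
    (H : ∀ (L n h M K : ℕ) (u v : ℕ → ℂ), (∀ m, ‖u m‖ ≤ 1) →
      (∀ k, ‖v k‖ ≤ 1) → 1 ≤ L → L ^ 2 ≤ 16 * n → n ≤ L ^ 2 → 1 ≤ h → h ≤ K → 1 ≤ M → M ≤ K →
      M * K ≤ 2 * L → L < 4 * (M * K) →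
      ‖∑ m ∈ Ioc M (2 * M), ∑ k ∈ (Ioc K (2 * K)).filter (fun k => L < m * k ∧ m * k ≤ 2 * L),
        u m * v k * ex ((h * n : ℝ) / ((m : ℝ) * k - 1))‖ ≤
        C * L * ((M : ℝ) ^ (-(1 / 2) : ℝ) + ((h : ℝ) / K) ^ (1 / 6 : ℝ)))
    (L n h V : ℕ) (y : ℝ) (hy : 1 ≤ y) (hyL : y ^ 12 = L) (hn1 : L ^ 2 ≤ 16 * n) (hn2 : n ≤ L ^ 2)
    (hh : 1 ≤ h) (hhL : 4 * h ^ 2 ≤ L) (hV : y ^ 2 < V + 1)
    (a b : ℕ → ℂ) (ha : ∀ m, ‖a m‖ ≤ 1) (hb : ∀ l, ‖b l‖ ≤ 1) (M K : ℕ) (hM : 1 ≤ M) (hK : 1 ≤ K)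
    (hM2 : V < 2 * M) (hK2 : V < 2 * K) (hMK : M * K ≤ 2 * L) :
    ‖∑ m ∈ Ioc M (2 * M), ∑ l ∈ Ioc K (2 * K), a m * b l *
        (if L < m * l ∧ m * l ≤ 2 * L then ex ((h * n : ℝ) / (((m * l : ℕ) : ℝ) - 1)) else 0)‖ ≤
      4 * C * y ^ 11 * Real.sqrt h := by
  have hy0 : 0 < y := by linarith
  have hL1 : 1 ≤ L := by nlinarith
  have hs1 : 1 ≤ Real.sqrt h := by
    rw [Real.one_le_sqrt]
    exact_mod_cast hh
  have hss : Real.sqrt h * Real.sqrt h = h := Real.mul_self_sqrt (Nat.cast_nonneg _)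
  -- the bound for ordered pairs
  have main : ∀ (u v : ℕ → ℂ), (∀ m, ‖u m‖ ≤ 1) → (∀ k, ‖v k‖ ≤ 1) → ∀ M K : ℕ, 1 ≤ M → M ≤ K →
      V < 2 * M → M * K ≤ 2 * L → L < 4 * (M * K) →
      ‖∑ m ∈ Ioc M (2 * M), ∑ k ∈ (Ioc K (2 * K)).filter (fun k => L < m * k ∧ m * k ≤ 2 * L),
        u m * v k * ex ((h * n : ℝ) / ((m : ℝ) * k - 1))‖ ≤ 4 * C * y ^ 11 * Real.sqrt h := by
    intro u v hu hv M K hM hMK' hM2 hMK h4
    have hhK : h ≤ K := by
      by_contra hc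
      push Not at hc
      have h1 : M * K ≤ K * K := Nat.mul_le_mul_right _ hMK'
      have h2 : K * K < h * h := Nat.mul_lt_mul_of_lt_of_lt hc hc
      nlinarith
    refine (H L n h M K u v hu hv hL1 hn1 hn2 hh hhK hM hMK' hMK h4).trans ?_
    have hM0 : (0 : ℝ) < M := by exact_mod_cast hM
    have hK0 : (0 : ℝ) < K := by exact_mod_cast (by omega : 0 < K)
    have e1 : (M : ℝ) ^ (-(1 / 2) : ℝ) ≤ 2 / y := by
      rw [Real.rpow_neg hM0.le, ← Real.sqrt_eq_rpow, ← one_div, div_le_div_iff₀ (Real.sqrt_pos.2 hM0) hy0,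
        one_mul]
      have h1 : y / 2 ≤ Real.sqrt M := by
        apply Real.le_sqrt_of_sq_le
        have h2 : (V : ℝ) + 1 ≤ 2 * M := by exact_mod_cast hM2
        nlinarith
      linarith
    have hKL : y ^ 6 ≤ 2 * K := by
      have h1 : (L : ℝ) < 4 * (M * K) := by exact_mod_cast h4
      have h2 : (M : ℝ) ≤ K := by exact_mod_cast hMK'
      have h3 : (y ^ 6) ^ 2 ≤ (2 * K : ℝ) ^ 2 := by
        calc (y ^ 6) ^ 2 = y ^ 12 := by ring
          _ = (L : ℝ) := hyL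
          _ ≤ 4 * ((M : ℝ) * K) := h1.le
          _ ≤ 4 * ((K : ℝ) * K) := by gcongr
          _ = (2 * K : ℝ) ^ 2 := by ring
      exact le_of_sq_le_sq h3 (by positivity)
    have hh1 : (1 : ℝ) ≤ h := by exact_mod_cast hh
    have e2 : ((h : ℝ) / K) ^ (1 / 6 : ℝ) ≤ 2 * Real.sqrt h / y := by
      have h1 : (h : ℝ) / K ≤ (2 * Real.sqrt h / y) ^ 6 := by
        have h2 : (2 * Real.sqrt h / y) ^ 6 = 64 * (h : ℝ) ^ 3 / y ^ 6 := by
          rw [div_pow]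
          congr 1
          calc (2 * Real.sqrt h) ^ 6 = 64 * (Real.sqrt h * Real.sqrt h) ^ 3 := by ring
            _ = _ := by rw [hss]
        rw [h2, div_le_div_iff₀ hK0 (by positivity)]
        calc (h : ℝ) * y ^ 6 ≤ h * (2 * K) := by gcongr
          _ ≤ 64 * (h : ℝ) ^ 3 * K := by
              have h3 : (h : ℝ) ≤ (h : ℝ) ^ 3 := by nlinarith [sq_nonneg ((h : ℝ) - 1)]
              nlinarith [mul_le_mul_of_nonneg_right h3 hK0.le, mul_pos (by linarith : (0 : ℝ) < h) hK0]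
      calc ((h : ℝ) / K) ^ (1 / 6 : ℝ) ≤ ((2 * Real.sqrt h / y) ^ 6) ^ (1 / 6 : ℝ) :=
            Real.rpow_le_rpow (by positivity) h1 (by norm_num)
        _ = 2 * Real.sqrt h / y := by
            rw [← Real.rpow_natCast, ← Real.rpow_mul (by positivity)]
            norm_num
    have e3 : (M : ℝ) ^ (-(1 / 2) : ℝ) + ((h : ℝ) / K) ^ (1 / 6 : ℝ) ≤ 4 * Real.sqrt h / y := by
      have h1 : 2 / y ≤ 2 * Real.sqrt h / y := by
        apply div_le_div_of_nonneg_right _ hy0.le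
        linarith
      have h2 : 4 * Real.sqrt h / y = 2 * Real.sqrt h / y + 2 * Real.sqrt h / y := by ring
      linarith
    calc C * L * ((M : ℝ) ^ (-(1 / 2) : ℝ) + ((h : ℝ) / K) ^ (1 / 6 : ℝ)) ≤
          C * L * (4 * Real.sqrt h / y) := mul_le_mul_of_nonneg_left e3 (by positivity)
      _ = 4 * C * y ^ 11 * Real.sqrt h := by
          rw [← hyL]
          field_simp
  by_cases h4 : 4 * (M * K) ≤ L
  · rw [sum_eq_zero, norm_zero]
    · positivity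
    · intro m hm
      refine sum_eq_zero fun l hl => ?_
      rw [mem_Ioc] at hm hl
      have h5 : m * l ≤ (2 * M) * (2 * K) := Nat.mul_le_mul hm.2 hl.2
      have h6 : (2 * M) * (2 * K) = 4 * (M * K) := by ring
      rw [if_neg (by omega), mul_zero]
  push Not at h4
  rcases le_total M K with hle | hle
  · have h5 := main a b ha hb M K hM hle hM2 hMK h4
    refine le_of_eq_of_le (congrArg norm ?_) h5
    refine sum_congr rfl fun m _ => ?_
    rw [sum_filter]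
    refine sum_congr rfl fun l _ => ?_
    rw [mul_ite, mul_zero, Nat.cast_mul]
  · have h5 := main b a hb ha K M hK hle hK2 (by rw [mul_comm]; exact hMK) (by rw [mul_comm K M]; exact h4)
    rw [sum_comm]
    refine le_of_eq_of_le (congrArg norm ?_) h5
    refine sum_congr rfl fun l _ => ?_
    rw [sum_filter]
    refine sum_congr rfl fun m _ => ?_
    rw [mul_ite, mul_zero, mul_comm m l, Nat.cast_mul, mul_comm (b l) (a m)]

theorem s_EXP (hTI : S_TYI) (hTII : S_TYII) : S_EXP := by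
  obtain ⟨C1, hC1, H1⟩ := hTI
  obtain ⟨C2, hC2, H2⟩ := hTII
  refine ⟨200 * C2 + 13 * C1, by positivity, ?_⟩
  intro L n h hL hn1 hn2 hh hhL
  have hL0 : (0 : ℝ) < L := by exact_mod_cast (by omega : 0 < L)
  have hL1 : (1 : ℝ) ≤ L := by exact_mod_cast (by omega : 1 ≤ L)
  set y : ℝ := (L : ℝ) ^ (1 / 12 : ℝ) with hy
  have hy1 : 1 ≤ y := Real.one_le_rpow hL1 (by norm_num)
  have hy0 : 0 < y := by linarith
  have hyL : y ^ 12 = L := by
    rw [hy, ← Real.rpow_natCast, ← Real.rpow_mul hL0.le]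
    norm_num
  have hy11 : (L : ℝ) ^ (11 / 12 : ℝ) = y ^ 11 := by
    rw [hy, ← Real.rpow_natCast, ← Real.rpow_mul hL0.le]
    norm_num
  set V : ℕ := ⌊y ^ 2⌋₊ with hVdef
  have hV1 : 1 ≤ V := by
    rw [hVdef, Nat.one_le_floor_iff]
    nlinarith
  have hVy : (V : ℝ) ≤ y ^ 2 := Nat.floor_le (by positivity)
  have hVy2 : y ^ 2 < V + 1 := Nat.lt_floor_add_one _
  have hVVr : (V : ℝ) * V ≤ y ^ 4 := by
    calc (V : ℝ) * V ≤ y ^ 2 * y ^ 2 := by gcongr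
      _ = y ^ 4 := by ring
  have hVV : V * V ≤ L := by
    have h1 : y ^ 4 ≤ y ^ 12 := pow_le_pow_right₀ hy1 (by norm_num)
    have h2 : ((V * V : ℕ) : ℝ) ≤ L := by
      push_cast
      linarith
    exact_mod_cast h2
  have hlog2 := Real.log_two_gt_d9
  have hlog2' := Real.log_two_lt_d9
  set ℓ : ℝ := Real.log L with hℓ
  have hℓ2 : Real.log 2 ≤ ℓ := Real.log_le_log (by norm_num) (by exact_mod_cast hL)
  have hℓ0 : 0 < ℓ := by linarith
  have hLg : Real.log ((2 * L : ℕ) : ℝ) ≤ 2 * ℓ := by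
    push_cast
    rw [Real.log_mul (by norm_num) hL0.ne']
    linarith
  have hs0 : 0 ≤ Real.sqrt h := Real.sqrt_nonneg _
  have key := vau_sup (fun m => ex ((h * n : ℝ) / ((m : ℝ) - 1))) L (2 * L) V (2 * ℓ)
    (C1 * Real.sqrt (h * L)) (4 * C2 * y ^ 11 * Real.sqrt h) (by omega) hV1 hVV hLg (by linarith)
    (by positivity) (by positivity)
    (by
      intro m hm b hb
      rw [mem_Icc] at hm
      have h1 := H1 L n h m (L / m) b (by omega) hn1 hn2 hh hm.1 (by omega)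
        (by
          have := Nat.lt_mul_div_succ L (by omega : 0 < m)
          exact this)
        (by
          rw [mul_comm]
          exact (Nat.le_div_iff_mul_le (by omega)).1 hb)
      convert h1 using 4 with l hl
      push_cast
      rfl)
    (by
      intro a b ha hb M K hM hK hM2 hK2 hMK
      exact piece hC2 H2 L n h V y hy1 hyL hn1 hn2 hh hhL hVy2 a b ha hb M K hM hK hM2 hK2 hMK)
  refine key.trans ?_
  have hlg : (Nat.log 2 (2 * L) + 1 : ℝ) ≤ 5 * ℓ := by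
    have h1 : (Nat.log 2 (2 * L) : ℝ) * Real.log 2 ≤ Real.log ((2 * L : ℕ) : ℝ) := by
      have h3 : (2 : ℝ) ^ Nat.log 2 (2 * L) ≤ ((2 * L : ℕ) : ℝ) := by
        exact_mod_cast Nat.pow_log_le_self 2 (by omega)
      have h4 := Real.log_le_log (by positivity) h3
      rwa [Real.log_pow] at h4
    have h2 : Real.log ((2 * L : ℕ) : ℝ) = Real.log 2 + ℓ := by
      push_cast
      rw [Real.log_mul (by norm_num) hL0.ne']
    have h5 : (0 : ℝ) ≤ Nat.log 2 (2 * L) := Nat.cast_nonneg _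
    nlinarith
  have hlg0 : (0 : ℝ) ≤ (Nat.log 2 (2 * L) + 1 : ℝ) := by positivity
  have hA : (Nat.log 2 (2 * L) + 1 : ℝ) ^ 2 * (2 * ℓ * (4 * C2 * y ^ 11 * Real.sqrt h)) ≤
      200 * C2 * (y ^ 11 * Real.sqrt h * ℓ ^ 3) := by
    calc (Nat.log 2 (2 * L) + 1 : ℝ) ^ 2 * (2 * ℓ * (4 * C2 * y ^ 11 * Real.sqrt h)) ≤
          (5 * ℓ) ^ 2 * (2 * ℓ * (4 * C2 * y ^ 11 * Real.sqrt h)) := by
          apply mul_le_mul_of_nonneg_right (pow_le_pow_left₀ hlg0 hlg 2)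
          positivity
      _ = _ := by ring
  have hsL : Real.sqrt ((h : ℝ) * L) = Real.sqrt h * y ^ 6 := by
    rw [Real.sqrt_mul (Nat.cast_nonneg _), ← hyL, show y ^ 12 = (y ^ 6) ^ 2 by ring,
      Real.sqrt_sq (by positivity)]
  have hB : 3 * ((V : ℝ) * V) * (2 * ℓ * (C1 * Real.sqrt (h * L))) ≤
      13 * C1 * (y ^ 11 * Real.sqrt h * ℓ ^ 3) := by
    rw [hsL]
    have h0 : 1 ≤ 2.1 * ℓ ^ 2 := by nlinarith
    have h1 : ℓ ≤ 2.1 * ℓ ^ 3 := by
      calc ℓ = ℓ * 1 := by ring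
        _ ≤ ℓ * (2.1 * ℓ ^ 2) := mul_le_mul_of_nonneg_left h0 hℓ0.le
        _ = _ := by ring
    calc 3 * ((V : ℝ) * V) * (2 * ℓ * (C1 * (Real.sqrt h * y ^ 6))) ≤
          3 * y ^ 4 * (2 * (2.1 * ℓ ^ 3) * (C1 * (Real.sqrt h * y ^ 6))) := by gcongr
      _ = 12.6 * C1 * (y ^ 10 * Real.sqrt h * ℓ ^ 3) := by ring
      _ ≤ 13 * C1 * (y ^ 11 * Real.sqrt h * ℓ ^ 3) := by
          have h2 : y ^ 10 ≤ y ^ 11 := pow_le_pow_right₀ hy1 (by norm_num)
          have h3 : y ^ 10 * Real.sqrt h * ℓ ^ 3 ≤ y ^ 11 * Real.sqrt h * ℓ ^ 3 := by gcongr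
          have h4 : 0 ≤ C1 * (y ^ 11 * Real.sqrt h * ℓ ^ 3) := by positivity
          nlinarith [mul_le_mul_of_nonneg_left h3 hC1.le]
  rw [hy11]
  calc _ ≤ 200 * C2 * (y ^ 11 * Real.sqrt h * ℓ ^ 3) + 13 * C1 * (y ^ 11 * Real.sqrt h * ℓ ^ 3) :=
        add_le_add hA hB
    _ = _ := by ring

end Pool.Agent.L7h22.BP
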