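import Pool.Agent.L7h58.BP.Stm3
import Pool.Agent.H373R2.T7.Vau

/-!
# Project BP, part EXP: Vaughan's method with bounded coefficients (helper22)
-/

set_option autoImplicit false

namespace Pool.Agent.L7h22.BP

open Finset
open Pool.Agent.H373R2.T3 (hyp abel_Ioc)
open Pool.Agent.H373R2.T7 (bil_gen)

/-- the part `≤ V` -/
noncomputable def lo (f : ArithmeticFunction ℝ) (V : ℕ) : ArithmeticFunction ℝ :=
  ⟨fun n => if n ≤ V then f n else 0, by simp⟩

/-- the part `> V` -/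
noncomputable def hi (f : ArithmeticFunction ℝ) (V : ℕ) : ArithmeticFunction ℝ :=
  ⟨fun n => if V < n then f n else 0, by simp⟩

theorem lo_add_hi (f : ArithmeticFunction ℝ) (V : ℕ) : lo f V + hi f V = f := by
  ext n
  show (if n ≤ V then f n else 0) + (if V < n then f n else 0) = f n
  split_ifs <;> first | omega | simp

theorem lo_apply (f : ArithmeticFunction ℝ) (V n : ℕ) : lo f V n = if n ≤ V then f n else 0 := rfl

theorem hi_apply (f : ArithmeticFunction ℝ) (V n : ℕ) : hi f V n = if V < n then f n else 0 := rfl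

open ArithmeticFunction in
/-- the Moebius function -/
noncomputable abbrev muR : ArithmeticFunction ℝ := ((moebius : ArithmeticFunction ℤ) : ArithmeticFunction ℝ)

/-- von Mangoldt -/
noncomputable abbrev LamR : ArithmeticFunction ℝ := ArithmeticFunction.vonMangoldt

open ArithmeticFunction in
theorem vau0 (V : ℕ) : LamR = lo LamR V + lo muR V * ArithmeticFunction.log
    + hi muR V * (hi LamR V * (zeta : ArithmeticFunction ℝ)) -
      (lo muR V * lo LamR V) * (zeta : ArithmeticFunction ℝ) := by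
  have h1 : muR * (zeta : ArithmeticFunction ℝ) = 1 := coe_moebius_mul_coe_zeta
  have h2 : LamR * (zeta : ArithmeticFunction ℝ) = ArithmeticFunction.log :=
    vonMangoldt_mul_zeta
  have h3 := lo_add_hi muR V
  have h4 := lo_add_hi LamR V
  have e1 : hi muR V = muR - lo muR V := eq_sub_of_add_eq' h3
  have e2 : hi LamR V = LamR - lo LamR V := eq_sub_of_add_eq' h4
  rw [e1, e2, ← h2]
  linear_combination (lo LamR V - LamR) * h1

/-- the divisor sums of `Λ` over the large divisors -/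
noncomputable def bb (V : ℕ) : ArithmeticFunction ℝ :=
  hi LamR V * (ArithmeticFunction.zeta : ArithmeticFunction ℝ)

theorem bb_apply (V n : ℕ) : bb V n = ∑ d ∈ n.divisors, hi LamR V d := by
  unfold bb
  rw [ArithmeticFunction.coe_mul_zeta_apply]

theorem hiL_nonneg (V n : ℕ) : 0 ≤ hi LamR V n := by
  rw [hi_apply]
  split_ifs
  · exact ArithmeticFunction.vonMangoldt_nonneg
  · exact le_rfl

theorem hiL_le (V n : ℕ) : hi LamR V n ≤ ArithmeticFunction.vonMangoldt n := by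
  rw [hi_apply]
  split_ifs
  · exact le_rfl
  · exact ArithmeticFunction.vonMangoldt_nonneg

theorem bb_nonneg (V n : ℕ) : 0 ≤ bb V n := by
  rw [bb_apply]
  exact sum_nonneg fun d _ => hiL_nonneg V d

theorem bb_le (V n : ℕ) : bb V n ≤ Real.log n := by
  rw [bb_apply, ← ArithmeticFunction.vonMangoldt_sum]
  exact sum_le_sum fun d _ => hiL_le V d

theorem bb_zero (V n : ℕ) (h : n ≤ V) : bb V n = 0 := by
  rw [bb_apply]
  refine sum_eq_zero fun d hd => ?_
  have := Nat.divisor_le hd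
  rw [hi_apply, if_neg (by omega)]

/-- the coefficients of the second type I sum -/
noncomputable def cc (V : ℕ) : ArithmeticFunction ℝ := lo muR V * lo LamR V

theorem mu_abs (n : ℕ) : |muR n| ≤ 1 := by
  have h : muR n = ((ArithmeticFunction.moebius n : ℤ) : ℝ) := rfl
  rw [h]
  exact_mod_cast ArithmeticFunction.abs_moebius_le_one

theorem lo_mu_abs (V n : ℕ) : |lo muR V n| ≤ 1 := by
  rw [lo_apply]
  split_ifs
  · exact mu_abs n
  · simp

theorem hi_mu_abs (V n : ℕ) : |hi muR V n| ≤ 1 := by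
  rw [hi_apply]
  split_ifs
  · exact mu_abs n
  · simp

theorem cc_abs (V m : ℕ) : |cc V m| ≤ Real.log m := by
  unfold cc
  rw [ArithmeticFunction.mul_apply]
  refine (abs_sum_le_sum_abs _ _).trans ?_
  rw [← ArithmeticFunction.vonMangoldt_sum (n := m),
    ← Nat.sum_divisorsAntidiagonal' (n := m) (fun _ i => ArithmeticFunction.vonMangoldt i)]
  apply sum_le_sum
  intro i _
  rw [abs_mul]
  have h2 : |lo LamR V i.2| ≤ ArithmeticFunction.vonMangoldt i.2 := by
    rw [lo_apply]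
    split_ifs
    · rw [abs_of_nonneg ArithmeticFunction.vonMangoldt_nonneg]
    · simp
  calc |lo muR V i.1| * |lo LamR V i.2| ≤ 1 * |lo LamR V i.2| :=
        mul_le_mul_of_nonneg_right (lo_mu_abs V i.1) (abs_nonneg _)
    _ ≤ _ := by rw [one_mul]; exact h2

theorem cc_zero (V m : ℕ) (h : V * V < m) : cc V m = 0 := by
  unfold cc
  rw [ArithmeticFunction.mul_apply]
  apply sum_eq_zero
  intro i hi
  have h1 := (Nat.mem_divisorsAntidiagonal.1 hi).1
  rw [lo_apply, lo_apply]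
  by_cases h2 : i.1 ≤ V
  · by_cases h3 : i.2 ≤ V
    · exfalso
      have := Nat.mul_le_mul h2 h3
      omega
    · rw [if_neg h3, mul_zero]
  · rw [if_neg h2, zero_mul]

theorem conv_sum (N N' : ℕ) (f g : ArithmeticFunction ℝ) (E : ℕ → ℂ) :
    ∑ n ∈ Ioc N N', (((f * g) n : ℝ) : ℂ) * E n =
      ∑ m ∈ Icc 1 N', ∑ l ∈ Ioc (N / m) (N' / m), ((f m : ℝ) : ℂ) * ((g l : ℝ) : ℂ) * E (m * l) := by
  rw [← hyp N N' (fun m l => ((f m : ℝ) : ℂ) * ((g l : ℝ) : ℂ) * E (m * l))]
  refine sum_congr rfl fun n _ => ?_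
  rw [ArithmeticFunction.mul_apply]
  push_cast
  rw [sum_mul]
  refine sum_congr rfl fun i hi => ?_
  rw [(Nat.mem_divisorsAntidiagonal.1 hi).1]

theorem vsum (V N N' : ℕ) (hVN : V ≤ N) (E : ℕ → ℂ) :
    ∑ n ∈ Ioc N N', ((ArithmeticFunction.vonMangoldt n : ℝ) : ℂ) * E n =
      ∑ m ∈ Icc 1 N', ∑ l ∈ Ioc (N / m) (N' / m), ((hi muR V m : ℝ) : ℂ) * ((bb V l : ℝ) : ℂ) * E (m * l) +
      ∑ m ∈ Icc 1 N', ((lo muR V m : ℝ) : ℂ) * ∑ l ∈ Ioc (N / m) (N' / m), ((Real.log l : ℝ) : ℂ) * E (m * l) -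
      ∑ m ∈ Icc 1 N', ((cc V m : ℝ) : ℂ) * ∑ l ∈ Ioc (N / m) (N' / m), E (m * l) := by
  have h0 : ∀ n ∈ Ioc N N', ((ArithmeticFunction.vonMangoldt n : ℝ) : ℂ) * E n =
      (((hi muR V * bb V) n : ℝ) : ℂ) * E n + (((lo muR V * ArithmeticFunction.log) n : ℝ) : ℂ) * E n -
        (((cc V * (ArithmeticFunction.zeta : ArithmeticFunction ℝ)) n : ℝ) : ℂ) * E n := by
    intro n hn
    rw [mem_Ioc] at hn
    have h1 := congrArg (fun f : ArithmeticFunction ℝ => f n) (vau0 V)
    simp only [sub_eq_add_neg, ArithmeticFunction.add_apply, ArithmeticFunction.neg_apply] at h1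
    rw [lo_apply, if_neg (by omega)] at h1
    have h2 : ((ArithmeticFunction.vonMangoldt n : ℝ) : ℂ) =
        (((hi muR V * bb V) n : ℝ) : ℂ) + (((lo muR V * ArithmeticFunction.log) n : ℝ) : ℂ) -
        (((cc V * (ArithmeticFunction.zeta : ArithmeticFunction ℝ)) n : ℝ) : ℂ) := by
      rw [← Complex.ofReal_add, ← Complex.ofReal_sub]
      congr 1
      unfold bb cc
      linarith
    rw [h2]
    ring
  rw [sum_congr rfl h0, sum_sub_distrib, sum_add_distrib, conv_sum, conv_sum, conv_sum]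
  congr 1
  · congr 1
    refine sum_congr rfl fun m _ => ?_
    rw [mul_sum]
    refine sum_congr rfl fun l _ => ?_
    rw [ArithmeticFunction.log_apply]
    ring
  · refine sum_congr rfl fun m _ => ?_
    rw [mul_sum]
    refine sum_congr rfl fun l hl => ?_
    rw [mem_Ioc] at hl
    rw [ArithmeticFunction.natCoe_apply, ArithmeticFunction.zeta_apply, 
      if_neg (Nat.lt_of_le_of_lt (Nat.zero_le _) hl.1).ne']
    push_cast
    ring

theorem outer (W N' : ℕ) (c : ℕ → ℝ) (g : ℕ → ℂ) (B Z : ℝ) (hB : 0 ≤ B) (hZ : 0 ≤ Z)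
    (hc : ∀ m ∈ Icc 1 N', |c m| ≤ B) (h0 : ∀ m, W < m → c m = 0)
    (hg : ∀ m ∈ Icc 1 N', m ≤ W → ‖g m‖ ≤ Z) :
    ‖∑ m ∈ Icc 1 N', ((c m : ℝ) : ℂ) * g m‖ ≤ W * (B * Z) := by
  refine (norm_sum_le _ _).trans ?_
  calc ∑ m ∈ Icc 1 N', ‖((c m : ℝ) : ℂ) * g m‖ ≤ ∑ m ∈ Icc 1 N', (if m ≤ W then B * Z else 0) := by
        refine sum_le_sum fun m hm => ?_
        split_ifs with h
        · rw [norm_mul, Complex.norm_real, Real.norm_eq_abs]
          exact mul_le_mul (hc m hm) (hg m hm h) (norm_nonneg _) hB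
        · rw [h0 m (by omega)]; simp
    _ = ∑ m ∈ (Icc 1 N').filter (fun m => m ≤ W), B * Z := by rw [sum_filter]
    _ ≤ ∑ m ∈ Icc 1 W, B * Z := by
        apply sum_le_sum_of_subset_of_nonneg
        · intro m hm
          rw [mem_filter, mem_Icc] at hm
          rw [mem_Icc]
          omega
        · intro m _ _
          positivity
    _ = W * (B * Z) := by rw [sum_const, Nat.card_Icc, nsmul_eq_mul]; simp

/-- Vaughan's method, bounded coefficients -/
theorem vau_sup (E : ℕ → ℂ) (N N' V : ℕ) (Lg Y R : ℝ) (hNN' : N ≤ N') (hV : 1 ≤ V)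
    (hVV : V * V ≤ N) (hLg : Real.log N' ≤ Lg) (hLg0 : 0 < Lg) (hY : 0 ≤ Y) (hR : 0 ≤ R)
    (hI : ∀ m ∈ Icc 1 (V * V), ∀ b, b ≤ N' / m → ‖∑ l ∈ Ioc (N / m) b, E (m * l)‖ ≤ Y)
    (hII : ∀ a b : ℕ → ℂ, (∀ m, ‖a m‖ ≤ 1) → (∀ l, ‖b l‖ ≤ 1) →
      ∀ M L : ℕ, 1 ≤ M → 1 ≤ L → V < 2 * M → V < 2 * L → M * L ≤ N' →
      ‖∑ m ∈ Ioc M (2 * M), ∑ l ∈ Ioc L (2 * L), a m * b l *
        (if N < m * l ∧ m * l ≤ N' then E (m * l) else 0)‖ ≤ R) :
    ‖∑ n ∈ Ioc N N', ((ArithmeticFunction.vonMangoldt n : ℝ) : ℂ) * E n‖ ≤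
      (Nat.log 2 N' + 1 : ℝ) ^ 2 * (Lg * R) + 3 * (V * V : ℝ) * (Lg * Y) := by
  have hVVV : V ≤ V * V := Nat.le_mul_of_pos_left _ (by omega)
  have hlog : ∀ m ∈ Icc 1 N', Real.log m ≤ Lg := by
    intro m hm
    rw [mem_Icc] at hm
    have h1 : (0 : ℝ) < m := by exact_mod_cast hm.1
    exact (Real.log_le_log h1 (by exact_mod_cast hm.2)).trans hLg
  rw [vsum V N N' (by omega) E]
  have hS1 : ‖∑ m ∈ Icc 1 N', ∑ l ∈ Ioc (N / m) (N' / m), ((hi muR V m : ℝ) : ℂ) *
      ((bb V l : ℝ) : ℂ) * E (m * l)‖ ≤ (Nat.log 2 N' + 1 : ℝ) ^ 2 * (Lg * R) := by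
    apply bil_gen E N N' V hV (fun m => ((hi muR V m : ℝ) : ℂ)) (fun l => ((bb V l : ℝ) : ℂ))
      (Lg * R) (by positivity)
    · intro m hm
      rw [hi_apply, if_neg (by omega)]
      simp
    · intro l hl
      rw [bb_zero V l hl]
      simp
    intro M L hM hL hM2 hL2 hML
    have key := hII (fun m => ((hi muR V m : ℝ) : ℂ))
      (fun l => if l ≤ N' then (((bb V l / Lg : ℝ)) : ℂ) else 0)
      (fun m => by
        rw [Complex.norm_real, Real.norm_eq_abs]
        exact hi_mu_abs V m)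
      (fun l => by
        split_ifs with h
        · rw [Complex.norm_real, Real.norm_eq_abs, abs_of_nonneg (div_nonneg (bb_nonneg V l) hLg0.le),
            div_le_one hLg0]
          rcases Nat.eq_zero_or_pos l with h2 | h2
          · rw [h2, bb_zero V 0 (by omega)]
            exact hLg0.le
          · exact (bb_le V l).trans (hlog l (mem_Icc.2 ⟨h2, h⟩))
        · simp) M L hM hL hM2 hL2 hML
    have e : ∑ m ∈ Ioc M (2 * M), ∑ l ∈ Ioc L (2 * L), ((hi muR V m : ℝ) : ℂ) * ((bb V l : ℝ) : ℂ) *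
        (if N < m * l ∧ m * l ≤ N' then E (m * l) else 0) =
        (Lg : ℂ) * ∑ m ∈ Ioc M (2 * M), ∑ l ∈ Ioc L (2 * L), ((hi muR V m : ℝ) : ℂ) *
          (if l ≤ N' then (((bb V l / Lg : ℝ)) : ℂ) else 0) *
        (if N < m * l ∧ m * l ≤ N' then E (m * l) else 0) := by
      rw [mul_sum]
      refine sum_congr rfl fun m hm => ?_
      rw [mul_sum]
      refine sum_congr rfl fun l hl => ?_
      rw [mem_Ioc] at hm hl
      have hc : (Lg : ℂ) ≠ 0 := by exact_mod_cast hLg0.ne'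
      by_cases h : l ≤ N'
      · rw [if_pos h]
        push_cast
        field_simp
      · have h2 : l ≤ m * l := Nat.le_mul_of_pos_left _ (by omega)
        rw [if_neg (show ¬ (N < m * l ∧ m * l ≤ N') by omega)]
        simp
    rw [e, norm_mul, Complex.norm_real, Real.norm_eq_abs, abs_of_pos hLg0]
    exact mul_le_mul_of_nonneg_left key hLg0.le
  have hS2 : ‖∑ m ∈ Icc 1 N', ((lo muR V m : ℝ) : ℂ) *
      ∑ l ∈ Ioc (N / m) (N' / m), ((Real.log l : ℝ) : ℂ) * E (m * l)‖ ≤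
      ((V * V : ℕ) : ℝ) * (1 * (2 * Lg * Y)) := by
    apply outer (V * V) N' (fun m => lo muR V m)
    · norm_num
    · positivity
    · intro m _
      exact lo_mu_abs V m
    · intro m hm
      rw [lo_apply, if_neg (by omega)]
    · intro m hm hmV
      have hm' := mem_Icc.1 hm
      have h4 : ‖∑ l ∈ Ioc (N / m) (N' / m), ((Real.log l : ℝ) : ℂ) * E (m * l)‖ ≤
          2 * Real.log ((N' / m : ℕ) : ℝ) * Y := by
        apply abel_Ioc (N / m) (N' / m) (Nat.div_le_div_right hNN') (fun l : ℕ => Real.log l) (fun l => E (m * l))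
        · intro a b hab
          simp only
          rcases Nat.eq_zero_or_pos a with h | h
          · rw [h, Nat.cast_zero, Real.log_zero]; exact Real.log_natCast_nonneg _
          · exact Real.log_le_log (by exact_mod_cast h) (by exact_mod_cast hab)
        · intro n; exact Real.log_natCast_nonneg _
        · intro b' hb'
          exact hI m (mem_Icc.2 ⟨hm'.1, hmV⟩) b' hb'
      have h5 : Real.log ((N' / m : ℕ) : ℝ) ≤ Lg := by
        have h6 : 1 ≤ N' / m := Nat.div_pos hm'.2 hm'.1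
        exact hlog _ (mem_Icc.2 ⟨h6, Nat.div_le_self _ _⟩)
      refine h4.trans ?_
      gcongr
  have hS3 : ‖∑ m ∈ Icc 1 N', ((cc V m : ℝ) : ℂ) * ∑ l ∈ Ioc (N / m) (N' / m), E (m * l)‖ ≤
      ((V * V : ℕ) : ℝ) * (Lg * Y) := by
    apply outer (V * V) N' (fun m => cc V m)
    · exact hLg0.le
    · exact hY
    · intro m hm
      exact (cc_abs V m).trans (hlog m hm)
    · intro m hm
      exact cc_zero V m hm
    · intro m hm hmV
      exact hI m (mem_Icc.2 ⟨(mem_Icc.1 hm).1, hmV⟩) _ le_rfl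
  refine (norm_sub_le _ _).trans ((add_le_add (norm_add_le _ _) le_rfl).trans ?_)
  rw [Nat.cast_mul] at hS2 hS3
  linarith

end Pool.Agent.L7h22.BP
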